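import Pool.Agent.Lib.MP_dde2f1_nt.Count4

/-!
# A counting bound for the integers with at most two `D(n)`-quadruples

`DQ n` is the set of all `D(n)`-quadruples and `U 2` is the set `U` of the problem.  The number of
its elements up to `X` is `O(X / (log X)⁴)`, and every element of absolute value at least `10⁷` has one
of four shapes, given by conditions on primes.
-/

open Pool.Agent.Lib.MP_dde2f1_nt

/-- the shape of the large elements of `U 2` -/
theorem Pool.Agent.Results.MP_dde2f1_nt.CountingBound.shape (n : ℤ) (hn : n ∈ U 2) (h : 10000000 ≤ |n|) :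
    ∃ m : ℤ, (n = m ∨ n = 4 * m) ∧
      ((∃ k : ℤ, m = 4 * k + 3 ∧ (2 * k + 1).natAbs.Prime ∧ (2 * k - 3).natAbs.Prime ∧
          (18 * k + 13).natAbs.Prime ∧ (m.natAbs.Prime ∨ ∃ q : ℕ, m = q * (q + 2))) ∨
        (∃ k : ℤ, m = 8 * k + 5 ∧ (2 * k + 1).natAbs.Prime ∧ (2 * k - 1).natAbs.Prime ∧
          (18 * k + 11).natAbs.Prime ∧ (m.natAbs.Prime ∨ ∃ q : ℕ, m = q * (q + 4)))) := by
  obtain ⟨h4, hle⟩ := hn
  obtain ⟨m, e, he, hnm, hm⟩ := struct2 n h4 h (by exact_mod_cast hle)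
  have hle2 : (DQ n).encard ≤ 2 := by exact_mod_cast hle
  have hlem : (DQ m).encard ≤ 2 := by
    rcases he with rfl | rfl
    · rw [hnm, one_mul] at hle2; exact hle2
    · rw [hnm] at hle2; exact (scale m).trans hle2
  have hmbig : 1000000 ≤ |m| := by
    rw [hnm, abs_mul] at h
    rcases he with rfl | rfl
    · rw [abs_one, one_mul] at h; omega
    · have h4 : |(4 : ℤ)| = 4 := rfl
      rw [h4] at h; omega
  refine ⟨m, ?_, ?_⟩
  · rcases he with rfl | rfl
    · left; rw [hnm, one_mul]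
    · right; exact hnm
  · rcases hm with ⟨k, rfl, p1, p2, p3⟩ | ⟨k, rfl, p1, p2, p3⟩
    · have hk : 1000 ≤ |k| := by
        rcases le_abs.1 hmbig with h | h
        · exact le_abs.2 (Or.inl (by omega))
        · exact le_abs.2 (Or.inr (by omega))
      exact Or.inl ⟨k, rfl, p1, p2, p3, prime3 k hk hlem p2⟩
    · have hk : 1000 ≤ |k| := by
        rcases le_abs.1 hmbig with h | h
        · exact le_abs.2 (Or.inl (by omega))
        · exact le_abs.2 (Or.inr (by omega))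
      exact Or.inr ⟨k, rfl, p1, p2, p3, prime5 k hk hlem p2⟩

/-- The number of integers `n ≢ 2 (mod 4)`, `|n| ≤ X`, with at most two `D(n)`-quadruples is
`O(X / (log X)⁴)`; the large ones have one of four shapes. -/
theorem Pool.Agent.Results.MP_dde2f1_nt.CountingBound.result :
    (∃ C : ℝ, 0 < C ∧ ∀ X : ℕ, 2 ≤ X →
      (({n : ℤ | n ∈ U 2 ∧ |n| ≤ (X : ℤ)}.ncard : ℕ) : ℝ) ≤ C * X / (Real.log X) ^ 4) ∧
    ∀ n : ℤ, n ∈ U 2 → 10000000 ≤ |n| → ∃ m : ℤ, (n = m ∨ n = 4 * m) ∧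
      ((∃ k : ℤ, m = 4 * k + 3 ∧ (2 * k + 1).natAbs.Prime ∧ (2 * k - 3).natAbs.Prime ∧
          (18 * k + 13).natAbs.Prime ∧ (m.natAbs.Prime ∨ ∃ q : ℕ, m = q * (q + 2))) ∨
        (∃ k : ℤ, m = 8 * k + 5 ∧ (2 * k + 1).natAbs.Prime ∧ (2 * k - 1).natAbs.Prime ∧
          (18 * k + 11).natAbs.Prime ∧ (m.natAbs.Prime ∨ ∃ q : ℕ, m = q * (q + 4)))) :=
  ⟨count4, Pool.Agent.Results.MP_dde2f1_nt.CountingBound.shape⟩
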