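import Pool.Agent.Lib.MP_dde2f1_nt.Count

/-!
# Almost all integers `n ≢ 2 (mod 4)` have arbitrarily many `D(n)`-quadruples

`DQ n` is the set of all `D(n)`-quadruples and `U K` the set of the integers `n ≢ 2 (mod 4)` with at
most `K` of them.  For every `K` the set `U K` has natural density zero.
-/

open Pool.Agent.Lib.MP_dde2f1_nt

theorem Pool.Agent.Results.MP_dde2f1_nt.DensityZero.result (K : ℕ) :
    Filter.Tendsto (fun X : ℕ => (({n : ℤ | n ∈ U K ∧ |n| ≤ (X : ℤ)}.ncard : ℕ) : ℝ) / X)
      Filter.atTop (nhds 0) :=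
  densK K
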